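import Pool.Agent.Y957.VK.Stm2
import Pool.Agent.Y950.AD.Flow

/-!
# Project VK: bounded sequences
-/

set_option autoImplicit false

namespace Pool.Agent.Y185.VK

open Finset MeasureTheory Filter Topology
open Pool.Agent.Y957.AD (PolyVar)
open Pool.Agent.Y957.VK

theorem seq2 (h : S_ALL) : S_SEQ2 := by
  intro g hg hN k a M hM c hc
  set B : ℝ := |M| + 1 with hB
  have hB0 : 0 < B := by positivity
  have hBc : (B : ℂ) ≠ 0 := by exact_mod_cast hB0.ne'
  set A : Fin k → ℝ → ℂ := fun i x => a i ⌊x⌋₊ / B with hA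
  have hb : ∀ i n, ‖a i n / (B : ℂ)‖ ≤ 1 := by
    intro i n
    rw [norm_div, Complex.norm_real, Real.norm_eq_abs, abs_of_pos hB0, div_le_one hB0]
    linarith [hM i n, le_abs_self M]
  have hA1 : ∀ i x, ‖A i x‖ ≤ 1 := fun i x => hb i ⌊x⌋₊
  have hAm : ∀ i, Measurable (A i) := fun i =>
    (measurable_of_countable (fun n : ℕ => a i n / (B : ℂ))).comp Nat.measurable_floor
  have hAv : ∀ i, PolyVar (A i) := by
    intro i
    have h1 := Pool.Agent.Y950.AD.polyVar_step (fun x => ⌊x⌋) (fun x y hxy => Int.floor_le_floor hxy)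
      1 1 one_pos (fun X hX => by simpa using Int.floor_le X) (fun n => a i n.toNat / (B : ℂ))
      (fun n => hb i n.toNat)
    exact h1
  have h1 := h g hg hN k A hA1 hAm hAv c hc
  filter_upwards [h1] with α hα K
  have h2 := (hα K).const_mul (B ^ k)
  rw [mul_zero] at h2
  refine h2.congr fun N => ?_
  have h3 : ∀ n : ℕ, ∏ i, a i ⌊α i * (n : ℝ) ^ (c i)⌋₊ =
      (B : ℂ) ^ k * ∏ i, A i (α i * (n : ℝ) ^ (c i)) := by
    intro n
    rw [hA]
    simp only
    rw [Finset.prod_div_distrib, Finset.prod_const, Finset.card_univ, Fintype.card_fin,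
      mul_div_cancel₀ _ (pow_ne_zero _ hBc)]
  have h4 : ∑ n ∈ Finset.Icc 1 N, g n * ∏ i, a i ⌊α i * (n : ℝ) ^ (c i)⌋₊ =
      (B : ℂ) ^ k * ∑ n ∈ Finset.Icc 1 N, g n * ∏ i, A i (α i * (n : ℝ) ^ (c i)) := by
    rw [Finset.mul_sum]
    refine Finset.sum_congr rfl fun n _ => ?_
    rw [h3]
    ring
  rw [h4, norm_mul, norm_pow, Complex.norm_real, Real.norm_eq_abs, abs_of_pos hB0]
  ring

end Pool.Agent.Y185.VK
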